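import Pool.Agent.H81.NCH.Stmts
import Pool.Agent.H81.NCH.Base

/-!
# NCH, module KPC: totals
-/

set_option autoImplicit false

namespace Pool.Agent.H81.NCH

namespace KPC

theorem sum_ge (N j : ℕ) : ∑ x ∈ Finset.range N, (if j ≤ x then 1 else 0) = N - j := by
  rw [← Finset.card_filter]
  have h1 : (Finset.range N).filter (fun x => j ≤ x) = Finset.Ico j N := by
    ext x
    simp only [Finset.mem_filter, Finset.mem_range, Finset.mem_Ico]
    tauto
  rw [h1, Nat.card_Ico]

theorem sum_mod (N j : ℕ) (H : ℕ) :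
    ∑ x ∈ Finset.range (N * H), (if j ≤ x % N then 1 else 0) = H * (N - j) := by
  induction H with
  | zero => simp
  | succ H ih =>
    have h0 : N * (H + 1) = N * H + N := by ring
    rw [h0, Finset.sum_range_add, ih]
    have h1 : ∑ x ∈ Finset.range N, (if j ≤ (N * H + x) % N then 1 else 0) = N - j := by
      rw [← sum_ge N j]
      apply Finset.sum_congr rfl
      intro x hx
      rw [Finset.mem_range] at hx
      rw [Nat.mul_add_mod, Nat.mod_eq_of_lt hx]
    rw [h1]
    ring

theorem j_bound {h e i : ℕ} (he : e ≤ h) (hi : i < 2 ^ e) : 4 * (2 ^ e + i) ≤ NN h := by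
  have h1 : 2 ^ e ≤ 2 ^ h := Nat.pow_le_pow_right (by norm_num) he
  have h2 : NN h = 8 * 2 ^ h := by
    unfold NN
    rw [pow_add]
    ring
  omega

theorem kap_eq_sum (h m e i r t : ℕ) :
    kap h m e i r t = ∑ s ∈ Finset.range t, (if Kept h m e i r s then 1 else 0) := by
  unfold kap
  rw [Finset.card_filter]

theorem kap_mono (h m e i r : ℕ) {t t' : ℕ} (ht : t ≤ t') : kap h m e i r t ≤ kap h m e i r t' := by
  unfold kap
  apply Finset.card_le_card
  apply Finset.filter_subset_filter
  exact Finset.range_mono ht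

/-- second half of the wall -/
theorem kap_second (h m e i r : ℕ) :
    kap h m e i r (Wd h m (h - e)) = kap h m e i r (NH h m e) + HH m (h - e) * (NN h - (2 ^ e + i)) := by
  have h0 : Wd h m (h - e) = NH h m e + (1 + NH h m e) := by
    rw [Wd_eq]
    ring
  rw [kap_eq_sum, kap_eq_sum, h0, Finset.sum_range_add, Finset.sum_range_add]
  have h1 : ∑ x ∈ Finset.range 1, (if Kept h m e i r (NH h m e + x) then 1 else 0) = 0 := by
    rw [Finset.sum_range_one, if_neg]
    unfold Kept
    omega
  have h2 : ∑ x ∈ Finset.range (NH h m e), (if Kept h m e i r (NH h m e + (1 + x)) then 1 else 0) =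
      HH m (h - e) * (NN h - (2 ^ e + i)) := by
    rw [← sum_mod (NN h) (2 ^ e + i) (HH m (h - e))]
    apply Finset.sum_congr rfl
    intro x hx
    have h3 : Kept h m e i r (NH h m e + (1 + x)) ↔ 2 ^ e + i ≤ x % NN h := by
      unfold Kept
      have h4 : NH h m e + (1 + x) - NH h m e - 1 = x := by omega
      rw [h4]
      constructor
      · rintro (⟨h5, _⟩ | ⟨_, h5⟩)
        · omega
        · exact h5
      · intro h5
        exact Or.inr ⟨by omega, h5⟩
    simp only [h3]
  rw [h1, h2]
  omega

/-- first half of the wall, `r = 0` -/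
theorem kap_first (h m e i : ℕ) :
    kap h m e i 0 (NH h m e) = HH m (h - e) * (NN h - (2 ^ e + i)) := by
  rw [kap_eq_sum, ← sum_mod (NN h) (2 ^ e + i) (HH m (h - e))]
  apply Finset.sum_congr rfl
  intro x hx
  rw [Finset.mem_range] at hx
  have h3 : Kept h m e i 0 x ↔ 2 ^ e + i ≤ x % NN h := by
    unfold Kept
    simp only [Nat.not_lt_zero, if_false]
    constructor
    · rintro (⟨_, h5⟩ | ⟨h5, _⟩)
      · exact h5
      · omega
    · intro h5
      exact Or.inl ⟨hx, h5⟩
  simp only [h3]

end KPC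

open KPC in
/-- KPC -/
theorem kpc_thm (hKPA : KPAStmt) : KPCStmt := by
  intro h m e i r he hi hr
  obtain ⟨_, _, h3⟩ := hKPA h m e i he hi
  have hj := j_bound he hi
  have hH : m ≤ HH m (h - e) := by
    unfold HH
    have : 1 ≤ 4 ^ (h - e) := Nat.one_le_pow _ _ (by norm_num)
    nlinarith
  have hNr : NN h * r ≤ Wd h m (h - e) := by
    rw [Wd_eq]
    have h5 : NN h * r ≤ NH h m e := by
      unfold NH
      exact Nat.mul_le_mul_left _ (hr.trans hH)
    omega
  have h4 := h3 r (Wd h m (h - e)) hNr hr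
  have h5 := kap_second h m e i 0
  have h6 := kap_second h m e i r
  have h7 := kap_first h m e i
  have h8 : 3 * NH h m e ≤ 4 * (HH m (h - e) * (NN h - (2 ^ e + i))) := by
    obtain ⟨c, hc⟩ : ∃ c, NN h = (2 ^ e + i) + c := ⟨NN h - (2 ^ e + i), by omega⟩
    have h9 : NN h - (2 ^ e + i) = c := by omega
    rw [h9]
    unfold NH
    have h10 : 3 * NN h ≤ 4 * c := by omega
    nlinarith
  constructor
  · omega
  · intro t ht
    have h10 := kap_mono h m e i r ht
    omega

end Pool.Agent.H81.NCH
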