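import Pool.Agent.H81.NCH.Stmts
import Pool.Agent.H81.NCH.Base

/-!
# NCH, module LVG: signs of the levels in the interval and in the core of a node
-/

set_option autoImplicit false

namespace Pool.Agent.H81.NCH

namespace LVG

theorem sgn_sq (e i : ℕ) : sgn e i * sgn e i = 1 := by
  unfold sgn
  split_ifs
  · rw [← pow_add, ← two_mul, pow_mul]
    norm_num
  · rw [← pow_add, ← two_mul, pow_mul]
    norm_num

theorem abs_sgn (e i : ℕ) : |sgn e i| = 1 := by
  have h1 := sgn_sq e i
  have h2 : |sgn e i| * |sgn e i| = 1 := by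
    rw [← abs_mul, h1, abs_one]
  have h3 := abs_nonneg (sgn e i)
  nlinarith

theorem kap_le (h m e i r t : ℕ) : kap h m e i r t ≤ t := by
  unfold kap
  calc _ ≤ (Finset.range t).card := Finset.card_filter_le _ _
    _ = t := Finset.card_range t

theorem bas_succ (h m : ℕ) (r : ℕ → ℕ → ℕ) {e x : ℕ} (he : 1 ≤ e) :
    bas h m r (e + 1) x = bas h m r e (x / 2) + sgn e (x / 2) *
      (kap h m e (x / 2) (r e (x / 2)) (Wd h m (h - e)) : ℤ) := by
  unfold bas
  rw [Finset.sum_Ico_succ_top he]
  congr 1
  · apply Finset.sum_congr rfl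
    intro D hD
    rw [Finset.mem_Ico] at hD
    have h1 : x / 2 ^ (e + 1 - D) = x / 2 / 2 ^ (e - D) := by
      rw [Nat.div_div_eq_div_mul]
      congr 1
      have : e + 1 - D = (e - D) + 1 := by omega
      rw [this, pow_succ]
      ring
    rw [h1]
  · have h2 : x / 2 ^ (e + 1 - e) = x / 2 := by
      have : e + 1 - e = 1 := by omega
      rw [this, pow_one]
    rw [h2]

/-- the contribution of the strict descendants -/
theorem dev (hLVF : LVFStmt) (h m : ℕ) (r : ℕ → ℕ → ℕ) : ∀ k e i t : ℕ, e + k = h → 1 ≤ e →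
    i < 2 ^ e → st h m e i ≤ t → t ≤ en h m e i →
    |phi h m r t - bas h m r e i - sgn e i * (kap h m e i (r e i) (idx h m e i t) : ℤ)| ≤
      ∑ j ∈ Finset.range k, (Wd h m j : ℤ) := by
  intro k
  induction k with
  | zero =>
    intro e i t hek he hi h1 h2
    have h8 : h - e = 0 := by omega
    have h9 : ce h m e i = cs h m e i := by
      rw [ce_def, h8]; rfl
    have h10 : ∃ side, InWall h m side e i t := by
      rcases le_total t (cs h m e i) with h3 | h3
      · exact ⟨true, by simp only [InWall, if_true]; exact ⟨h1, h3⟩⟩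
      · refine ⟨false, ?_⟩
        unfold InWall
        rw [if_neg (by simp)]
        exact ⟨by omega, h2⟩
    rw [hLVF h m r e i t he (by omega) hi h10]
    simp
  | succ k ih =>
    intro e i t hek he hi h1 h2
    have hpos : (0 : ℤ) ≤ ∑ j ∈ Finset.range (k + 1), (Wd h m j : ℤ) :=
      Finset.sum_nonneg (fun j _ => by positivity)
    by_cases h3 : ∃ side, InWall h m side e i t
    · rw [hLVF h m r e i t he (by omega) hi h3]
      have h4 : bas h m r e i + sgn e i * (kap h m e i (r e i) (idx h m e i t) : ℤ) - bas h m r e i -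
          sgn e i * (kap h m e i (r e i) (idx h m e i t) : ℤ) = 0 := by ring
      rw [h4, abs_zero]
      exact hpos
    · have h4 : cs h m e i ≤ t := by
        by_contra h5
        exact h3 ⟨true, by simp only [InWall, if_true]; exact ⟨h1, by omega⟩⟩
      have h5 : t ≤ ce h m e i := by
        by_contra h6
        apply h3
        refine ⟨false, ?_⟩
        unfold InWall
        rw [if_neg (by simp)]
        exact ⟨by omega, h2⟩
      have he' : e < h := by omega
      obtain ⟨x, hx, hx2, h6, h7⟩ : ∃ x, x < 2 ^ (e + 1) ∧ x / 2 = i ∧ st h m (e + 1) x ≤ t ∧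
          t ≤ en h m (e + 1) x := by
        rcases le_total t (md h m e i) with h6 | h6
        · refine ⟨2 * i, by rw [pow_succ]; omega, by omega, ?_, ?_⟩
          · rw [st_left]; exact h4
          · rw [en_left]; exact h6
        · refine ⟨2 * i + 1, by rw [pow_succ]; omega, by omega, ?_, ?_⟩
          · rw [st_right]; exact h6
          · rw [en_right he']; exact h5
      have h8 := ih (e + 1) x t (by omega) (by omega) hx h6 h7
      rw [bas_succ h m r he, hx2] at h8
      rw [idx_core he h4 h5]
      have h9 : (kap h m (e + 1) x (r (e + 1) x) (idx h m (e + 1) x t) : ℤ) ≤ (Wd h m k : ℤ) := by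
        have h10 := kap_le h m (e + 1) x (r (e + 1) x) (idx h m (e + 1) x t)
        have h11 := idx_le (h := h) (m := m) (e + 1) x t
        have h12 : h - (e + 1) = k := by omega
        rw [h12] at h11
        exact_mod_cast h10.trans h11
      have h10 : |sgn (e + 1) x * (kap h m (e + 1) x (r (e + 1) x) (idx h m (e + 1) x t) : ℤ)| ≤
          (Wd h m k : ℤ) := by
        rw [abs_mul, abs_sgn, one_mul, abs_of_nonneg (by positivity)]
        exact h9
      rw [Finset.sum_range_succ]
      rw [abs_le] at h8 h10 ⊢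
      constructor <;> linarith [h8.1, h8.2, h10.1, h10.2]

theorem sum_Wd (h m : ℕ) : ∀ k : ℕ, 3 * (∑ j ∈ Finset.range k, (Wd h m j : ℤ)) + 8 * (NN h : ℤ) * m =
    8 * (NN h : ℤ) * m * 4 ^ k + 3 * k := by
  intro k
  induction k with
  | zero => simp
  | succ k ih =>
    rw [Finset.sum_range_succ]
    have h1 : (Wd h m k : ℤ) = 8 * (NN h : ℤ) * m * 4 ^ k + 1 := by
      unfold Wd HH
      push_cast
      ring
    rw [h1]
    push_cast
    rw [pow_succ]
    linarith

end LVG

open LVG in
/-- LVG -/
theorem lvg_thm (hKPC : KPCStmt) (hLVF : LVFStmt) : LVGStmt := by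
  intro h m r e i t hm hr he heh hi h1 h2
  have hs := sgn_sq e i
  have core : cs h m e i ≤ t → t ≤ ce h m e i →
      3 * (KK h : ℤ) ≤ sgn e i * (phi h m r t - bas h m r e i) := by
    intro h3 h4
    have h5 := dev hLVF h m r (h - e) e i t (by omega) he hi h1 h2
    rw [idx_core he h3 h4] at h5
    have h6 := (hKPC h m e i (r e i) heh hi (hr e i).2).1
    have h7 := sum_Wd h m (h - e)
    set S : ℤ := ∑ j ∈ Finset.range (h - e), (Wd h m j : ℤ) with hS
    set L : ℤ := (kap h m e i (r e i) (Wd h m (h - e)) : ℤ) with hL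
    have h8 : L - S ≤ sgn e i * (phi h m r t - bas h m r e i) := by
      have h9 : |sgn e i * (phi h m r t - bas h m r e i - sgn e i * L)| ≤ S := by
        rw [abs_mul, abs_sgn, one_mul]
        exact h5
      have h10 : sgn e i * (phi h m r t - bas h m r e i - sgn e i * L) =
          sgn e i * (phi h m r t - bas h m r e i) - L := by
        have : sgn e i * (sgn e i * L) = L := by rw [← mul_assoc, hs, one_mul]
        rw [mul_sub, this]
      rw [h10, abs_le] at h9
      linarith [h9.1]
    refine le_trans ?_ h8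
    have h11 : (3 : ℤ) * (NH h m e : ℤ) ≤ 2 * L + 2 * (2 ^ (h + 1) * (r e i : ℤ)) := by
      rw [hL]
      exact_mod_cast h6
    have h12 : (NH h m e : ℤ) = 4 * (NN h : ℤ) * m * 4 ^ (h - e) := by
      unfold NH HH
      push_cast
      ring
    have h13 : (NN h : ℤ) = 8 * 2 ^ h := by
      unfold NN
      push_cast
      rw [pow_add]
      ring
    have h14 : (r e i : ℤ) ≤ m := by exact_mod_cast (hr e i).2
    have h15 : (1 : ℤ) ≤ m := by exact_mod_cast hm
    have h16 : (1 : ℤ) ≤ 4 ^ (h - e) := one_le_pow₀ (by norm_num)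
    have h17 : ((h : ℤ) + 1) ≤ 2 ^ h := by
      have : h < 2 ^ h := Nat.lt_two_pow_self
      exact_mod_cast this
    have h18 : ((h - e : ℕ) : ℤ) ≤ h := by
      exact_mod_cast Nat.sub_le h e
    have h19 : (KK h : ℤ) = h + 10 := by
      unfold KK
      push_cast
      ring
    rw [h19]
    rw [h12, h13] at h11
    rw [h13] at h7
    have h20 : (2 : ℤ) ^ h * m * 4 ^ (h - e) ≥ 2 ^ h * m := by
      have : (0 : ℤ) ≤ 2 ^ h * m := by positivity
      nlinarith
    have h21 : (2 : ℤ) ^ h * m ≥ 2 ^ h := by
      have : (0 : ℤ) ≤ 2 ^ h := by positivity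
      nlinarith
    have h22 : (2 : ℤ) ^ (h + 1) * (r e i : ℤ) ≤ 2 * (2 ^ h * m) := by
      rw [pow_succ]
      have : (0 : ℤ) ≤ 2 ^ h := by positivity
      nlinarith
    set A : ℤ := (2 : ℤ) ^ h * m * 4 ^ (h - e) with hA
    have h23 : 3 * (4 * (8 * (2 : ℤ) ^ h) * m * 4 ^ (h - e)) = 96 * A := by rw [hA]; ring
    have h24 : 8 * (8 * (2 : ℤ) ^ h) * m * 4 ^ (h - e) = 64 * A := by rw [hA]; ring
    have h25 : 8 * (8 * (2 : ℤ) ^ h) * m = 64 * (2 ^ h * m) := by ring
    rw [h23] at h11
    rw [h24, h25] at h7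
    linarith
  refine ⟨?_, core⟩
  by_cases h3 : ∃ side, InWall h m side e i t
  · rw [hLVF h m r e i t he heh hi h3]
    have h4 : sgn e i * (bas h m r e i + sgn e i * (kap h m e i (r e i) (idx h m e i t) : ℤ) -
        bas h m r e i) = (kap h m e i (r e i) (idx h m e i t) : ℤ) := by
      have : sgn e i * (bas h m r e i + sgn e i * (kap h m e i (r e i) (idx h m e i t) : ℤ) -
        bas h m r e i) = (sgn e i * sgn e i) * (kap h m e i (r e i) (idx h m e i t) : ℤ) := by ring
      rw [this, hs, one_mul]
    rw [h4]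
    positivity
  · have h4 : cs h m e i ≤ t := by
      by_contra h5
      exact h3 ⟨true, by simp only [InWall, if_true]; exact ⟨h1, by omega⟩⟩
    have h5 : t ≤ ce h m e i := by
      by_contra h6
      apply h3
      refine ⟨false, ?_⟩
      unfold InWall
      rw [if_neg (by simp)]
      exact ⟨by omega, h2⟩
    have h6 := core h4 h5
    have h7 : (0 : ℤ) ≤ (KK h : ℤ) := by positivity
    linarith

end Pool.Agent.H81.NCH
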